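import Mathlib

set_option autoImplicit false

namespace Pool.Agent.Helper15_Conics

/-- Value at `(x, y)` of the polynomial of degree at most two with coefficient vector `q`. -/
def ev (q : Fin 6 → ℝ) (x y : ℝ) : ℝ :=
  q 0 * x ^ 2 + q 1 * (x * y) + q 2 * y ^ 2 + q 3 * x + q 4 * y + q 5

lemma ev_sum (V : Fin 6 → Fin 6 → ℝ) (g : Fin 6 → ℝ) (x y : ℝ) :
    ev (fun k => ∑ i, g i * V i k) x y = ∑ i, g i * ev (V i) x y := by
  simp only [ev, Fin.sum_univ_six]
  ring

/-- Evaluation at six points as a linear map. -/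
def evMap (X Y : Fin 6 → ℝ) : (Fin 6 → ℝ) →ₗ[ℝ] (Fin 6 → ℝ) where
  toFun q := fun j => ev q (X j) (Y j)
  map_add' p q := by
    funext j
    simp only [ev, Pi.add_apply]
    ring
  map_smul' c q := by
    funext j
    simp only [ev, Pi.smul_apply, smul_eq_mul, RingHom.id_apply]
    ring

lemma evMap_inj (X Y : Fin 6 → ℝ) (V : Fin 6 → Fin 6 → ℝ)
    (h0 : ∀ i j, i ≠ j → ev (V i) (X j) (Y j) = 0)
    (h1 : ∀ i, ev (V i) (X i) (Y i) ≠ 0)
    (q : Fin 6 → ℝ) (hq : ∀ j, ev q (X j) (Y j) = 0) : q = 0 := by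
  have hsurj : Function.Surjective (evMap X Y) := by
    intro g
    refine ⟨fun k => ∑ i, (g i / ev (V i) (X i) (Y i)) * V i k, ?_⟩
    funext j
    have hdef : (evMap X Y) (fun k => ∑ i, g i / ev (V i) (X i) (Y i) * V i k) j
        = ev (fun k => ∑ i, g i / ev (V i) (X i) (Y i) * V i k) (X j) (Y j) := rfl
    rw [hdef, ev_sum V (fun i => g i / ev (V i) (X i) (Y i)), Finset.sum_eq_single j]
    · field_simp [h1 j]
    · intro i _ hij
      rw [h0 i j hij, mul_zero]
    · intro h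
      exact absurd (Finset.mem_univ j) h
  have hinj : Function.Injective (evMap X Y) :=
    LinearMap.injective_iff_surjective.mpr hsurj
  apply hinj
  rw [map_zero]
  funext j
  exact hq j

/-- No nonzero affine function vanishes at four of the six points. -/
lemma affine_vanish (X Y : Fin 6 → ℝ) (V : Fin 6 → Fin 6 → ℝ)
    (h0 : ∀ i j, i ≠ j → ev (V i) (X j) (Y j) = 0)
    (h1 : ∀ i, ev (V i) (X i) (Y i) ≠ 0)
    (i j : Fin 6) (hij : i ≠ j) (a b c : ℝ)
    (h : ∀ k, k ≠ i → k ≠ j → a * X k + b * Y k + c = 0) : a = 0 ∧ b = 0 ∧ c = 0 := by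
  -- the line through the points `i`, `j`
  set α : ℝ := Y j - Y i with hα
  set β : ℝ := X i - X j with hβ
  set γ : ℝ := -(α * X i + β * Y i) with hγ
  have hne : ¬ (α = 0 ∧ β = 0) := by
    rintro ⟨ha, hb⟩
    have hY : Y j = Y i := by linarith
    have hX : X j = X i := by linarith
    have := h0 i j hij
    rw [hX, hY] at this
    exact h1 i this
  have hq := evMap_inj X Y V h0 h1
    ![a * α, a * β + b * α, b * β, a * γ + c * α, b * γ + c * β, c * γ] (by
      intro k
      have hfac : ev ![a * α, a * β + b * α, b * β, a * γ + c * α, b * γ + c * β, c * γ] (X k) (Y k)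
          = (a * X k + b * Y k + c) * (α * X k + β * Y k + γ) := by
        simp [ev]
        ring
      rw [hfac]
      by_cases hki : k = i
      · subst hki
        rw [hγ]; ring
      · by_cases hkj : k = j
        · subst hkj
          rw [hγ, hα, hβ]; ring
        · rw [h k hki hkj, zero_mul])
  have e0 : a * α = 0 := by simpa using congrFun hq 0
  have e1 : a * β + b * α = 0 := by simpa using congrFun hq 1
  have e2 : b * β = 0 := by simpa using congrFun hq 2
  have e3 : a * γ + c * α = 0 := by simpa using congrFun hq 3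
  have e4 : b * γ + c * β = 0 := by simpa using congrFun hq 4
  have ha : a = 0 := by
    by_contra hne'
    have hα0 : α = 0 := by
      rcases mul_eq_zero.mp e0 with h | h
      · exact absurd h hne'
      · exact h
    rw [hα0, mul_zero, add_zero] at e1
    have hβ0 : β = 0 := by
      rcases mul_eq_zero.mp e1 with h | h
      · exact absurd h hne'
      · exact h
    exact hne ⟨hα0, hβ0⟩
  have hb : b = 0 := by
    by_contra hne'
    have hβ0 : β = 0 := by
      rcases mul_eq_zero.mp e2 with h | h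
      · exact absurd h hne'
      · exact h
    rw [hβ0, mul_zero, zero_add] at e1
    have hα0 : α = 0 := by
      rcases mul_eq_zero.mp e1 with h | h
      · exact absurd h hne'
      · exact h
    exact hne ⟨hα0, hβ0⟩
  refine ⟨ha, hb, ?_⟩
  rw [ha, zero_mul, zero_add] at e3
  rw [hb, zero_mul, zero_add] at e4
  by_contra hc
  apply hne
  constructor
  · rcases mul_eq_zero.mp e3 with h | h
    · exact absurd h hc
    · exact h
  · rcases mul_eq_zero.mp e4 with h | h
    · exact absurd h hc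
    · exact h

/-- The core: six quadratics of trace one, dual to six points, cannot have all the same
eccentricity. -/
lemma core0 (X Y : Fin 6 → ℝ) (V : Fin 6 → Fin 6 → ℝ)
    (h0 : ∀ i j, i ≠ j → ev (V i) (X j) (Y j) = 0)
    (h1 : ∀ i, ev (V i) (X i) (Y i) ≠ 0) (a : ℝ)
    (ht : ∀ i, V i 0 + V i 2 = 1)
    (hs : ∀ i, (V i 0 - V i 2) ^ 2 + (V i 1) ^ 2 = a) : False := by
  obtain ⟨u, hu⟩ : ∃ u : Fin 6 → ℝ, ∀ i, u i = V i 0 - V i 2 := ⟨_, fun i => rfl⟩
  obtain ⟨v, hv⟩ : ∃ v : Fin 6 → ℝ, ∀ i, v i = V i 1 := ⟨_, fun i => rfl⟩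
  have huv : ∀ i, u i ^ 2 + v i ^ 2 = a := by
    intro i; rw [hu, hv]; exact hs i
  -- a linear dependency
  obtain ⟨m, hm0, hm⟩ : ∃ m : Fin 6 → ℝ, m ≠ 0 ∧
      Matrix.vecMul m (Matrix.of fun j : Fin 6 =>
        (![u j ^ 2, u j * v j, v j ^ 2, u j, v j, 1] : Fin 6 → ℝ)) = 0 := by
    rw [Matrix.exists_vecMul_eq_zero_iff, ← Matrix.exists_mulVec_eq_zero_iff]
    refine ⟨![1, 0, 1, 0, 0, -a], ?_, ?_⟩
    · intro h
      have := congrFun h 0
      simp at this
    · funext j
      simp only [Matrix.mulVec, dotProduct, Matrix.of_apply, Fin.sum_univ_six]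
      simp
      have := huv j
      linarith
  have hcol : ∀ k : Fin 6, ∑ j, m j * (![u j ^ 2, u j * v j, v j ^ 2, u j, v j, 1] : Fin 6 → ℝ) k
      = 0 := by
    intro k
    have := congrFun hm k
    simpa [Matrix.vecMul, dotProduct] using this
  have c0 : ∑ j, m j * u j ^ 2 = 0 := by simpa using hcol 0
  have c1 : ∑ j, m j * (u j * v j) = 0 := by simpa using hcol 1
  have c2 : ∑ j, m j * v j ^ 2 = 0 := by simpa using hcol 2
  have c3 : ∑ j, m j * u j = 0 := by simpa using hcol 3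
  have c4 : ∑ j, m j * v j = 0 := by simpa using hcol 4
  have c5 : ∑ j, m j = 0 := by simpa using hcol 5
  -- representation
  have rep : ∀ g : Fin 6 → ℝ, ∑ i, g i = 0 → ∑ i, g i * u i = 0 → ∑ i, g i * v i = 0 →
      ∃ A B C : ℝ, ∀ j, A * X j + B * Y j + C = g j * ev (V j) (X j) (Y j) := by
    intro g g0 g1 g2
    refine ⟨∑ i, g i * V i 3, ∑ i, g i * V i 4, ∑ i, g i * V i 5, ?_⟩
    intro j
    have hev := ev_sum V g (X j) (Y j)
    have hR : ∑ i, g i * ev (V i) (X j) (Y j) = g j * ev (V j) (X j) (Y j) := by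
      rw [Finset.sum_eq_single j]
      · intro i _ hij
        rw [h0 i j hij, mul_zero]
      · intro h
        exact absurd (Finset.mem_univ j) h
    have s0 : ∑ i, g i * V i 0 = 0 := by
      have : ∀ i, g i * V i 0 = (g i + g i * u i) / 2 := by
        intro i
        have := ht i
        rw [hu i]
        have h2 : V i 2 = 1 - V i 0 := by linarith
        rw [h2]; ring
      simp_rw [this]
      rw [← Finset.sum_div, Finset.sum_add_distrib, g0, g1]; norm_num
    have s2 : ∑ i, g i * V i 2 = 0 := by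
      have : ∀ i, g i * V i 2 = (g i - g i * u i) / 2 := by
        intro i
        have := ht i
        rw [hu i]
        have h2 : V i 2 = 1 - V i 0 := by linarith
        rw [h2]; ring
      simp_rw [this]
      rw [← Finset.sum_div, Finset.sum_sub_distrib, g0, g1]; norm_num
    have s1 : ∑ i, g i * V i 1 = 0 := by
      have : ∀ i, g i * V i 1 = g i * v i := by intro i; rw [hv i]
      simp_rw [this]; exact g2
    rw [hR] at hev
    rw [← hev]
    simp only [ev]
    rw [s0, s1, s2]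
    ring
  obtain ⟨A1, B1, C1, hf1⟩ := rep m c5 c3 c4
  obtain ⟨Au, Bu, Cu, hfu⟩ := rep (fun i => m i * u i) c3
    (by simpa [pow_two, mul_assoc] using c0) (by simpa [mul_assoc] using c1)
  obtain ⟨Av, Bv, Cv, hfv⟩ := rep (fun i => m i * v i) c4
    (by
      have : ∀ i, m i * v i * u i = m i * (u i * v i) := by intro i; ring
      simp_rw [this]; exact c1)
    (by simpa [pow_two, mul_assoc] using c2)
  have hQ := evMap_inj X Y V h0 h1
    ![Au ^ 2 + Av ^ 2 - a * A1 ^ 2, 2 * (Au * Bu + Av * Bv - a * (A1 * B1)),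
      Bu ^ 2 + Bv ^ 2 - a * B1 ^ 2, 2 * (Au * Cu + Av * Cv - a * (A1 * C1)),
      2 * (Bu * Cu + Bv * Cv - a * (B1 * C1)), Cu ^ 2 + Cv ^ 2 - a * C1 ^ 2] (by
      intro j
      have hfac : ev ![Au ^ 2 + Av ^ 2 - a * A1 ^ 2, 2 * (Au * Bu + Av * Bv - a * (A1 * B1)),
          Bu ^ 2 + Bv ^ 2 - a * B1 ^ 2, 2 * (Au * Cu + Av * Cv - a * (A1 * C1)),
          2 * (Bu * Cu + Bv * Cv - a * (B1 * C1)), Cu ^ 2 + Cv ^ 2 - a * C1 ^ 2] (X j) (Y j)
          = (Au * X j + Bu * Y j + Cu) ^ 2 + (Av * X j + Bv * Y j + Cv) ^ 2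
            - a * (A1 * X j + B1 * Y j + C1) ^ 2 := by
        simp [ev]
        ring
      rw [hfac, hf1, hfu, hfv]
      have := huv j
      have e : (m j * u j * ev (V j) (X j) (Y j)) ^ 2 + (m j * v j * ev (V j) (X j) (Y j)) ^ 2
          - a * (m j * ev (V j) (X j) (Y j)) ^ 2
          = (m j * ev (V j) (X j) (Y j)) ^ 2 * (u j ^ 2 + v j ^ 2 - a) := by ring
      rw [e, this]; ring)
  have q0 : Au ^ 2 + Av ^ 2 - a * A1 ^ 2 = 0 := by simpa using congrFun hQ 0
  have q1 : Au * Bu + Av * Bv - a * (A1 * B1) = 0 := by simpa using congrFun hQ 1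
  have q2 : Bu ^ 2 + Bv ^ 2 - a * B1 ^ 2 = 0 := by simpa using congrFun hQ 2
  have q3 : Au * Cu + Av * Cv - a * (A1 * C1) = 0 := by simpa using congrFun hQ 3
  have q4 : Bu * Cu + Bv * Cv - a * (B1 * C1) = 0 := by simpa using congrFun hQ 4
  have q5 : Cu ^ 2 + Cv ^ 2 - a * C1 ^ 2 = 0 := by simpa using congrFun hQ 5
  -- an index with `m j0 ≠ 0`
  obtain ⟨j0, hj0⟩ : ∃ j, m j ≠ 0 := by
    by_contra hcon
    push Not at hcon
    exact hm0 (funext hcon)
  -- all other `m i` vanish
  have hoth : ∀ i, i ≠ j0 → m i = 0 := by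
    intro i hi
    by_contra hmi
    have pol : (Au * X i + Bu * Y i + Cu) * (Au * X j0 + Bu * Y j0 + Cu)
        + (Av * X i + Bv * Y i + Cv) * (Av * X j0 + Bv * Y j0 + Cv)
        = a * ((A1 * X i + B1 * Y i + C1) * (A1 * X j0 + B1 * Y j0 + C1)) := by
      linear_combination (X i * X j0) * q0 + (X i * Y j0 + Y i * X j0) * q1 + (Y i * Y j0) * q2
        + (X i + X j0) * q3 + (Y i + Y j0) * q4 + q5
    rw [hfu, hfu, hfv, hfv, hf1, hf1] at pol
    have hne : m i * ev (V i) (X i) (Y i) * (m j0 * ev (V j0) (X j0) (Y j0)) ≠ 0 :=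
      mul_ne_zero (mul_ne_zero hmi (h1 i)) (mul_ne_zero hj0 (h1 j0))
    have hdot : u i * u j0 + v i * v j0 = a := by
      apply mul_left_cancel₀ hne
      linear_combination pol
    have hi2 := huv i
    have hj2 := huv j0
    have hsq : (u i - u j0) ^ 2 + (v i - v j0) ^ 2 = 0 := by
      linear_combination hi2 + hj2 - 2 * hdot
    have hu0 : u i - u j0 = 0 := by nlinarith [sq_nonneg (u i - u j0), sq_nonneg (v i - v j0)]
    have hv0 : v i - v j0 = 0 := by nlinarith [sq_nonneg (u i - u j0), sq_nonneg (v i - v j0)]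
    have ti := ht i
    have tj := ht j0
    rw [hu, hu] at hu0
    rw [hv, hv] at hv0
    have d0 : V i 0 = V j0 0 := by linarith
    have d2 : V i 2 = V j0 2 := by linarith
    have d1 : V i 1 = V j0 1 := by linarith
    have haff := affine_vanish X Y V h0 h1 i j0 hi (V i 3 - V j0 3) (V i 4 - V j0 4)
      (V i 5 - V j0 5) (by
        intro k hki hkj
        have e1 := h0 i k (Ne.symm hki)
        have e2 := h0 j0 k (Ne.symm hkj)
        simp only [ev] at e1 e2
        rw [d0, d1, d2] at e1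
        linarith)
    obtain ⟨f3, f4, f5⟩ := haff
    have hfin : ev (V i) (X i) (Y i) = ev (V j0) (X i) (Y i) := by
      simp only [ev]
      rw [d0, d1, d2]
      linear_combination X i * f3 + Y i * f4 + f5
    exact h1 i (by rw [hfin]; exact h0 j0 i (Ne.symm hi))
  -- contradiction
  obtain ⟨i, hi⟩ : ∃ i : Fin 6, i ≠ j0 := exists_ne j0
  have haff := affine_vanish X Y V h0 h1 i j0 hi A1 B1 C1 (by
    intro k _ hkj
    rw [hf1 k, hoth k hkj, zero_mul])
  obtain ⟨f1, f2, f3⟩ := haff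
  have := hf1 j0
  rw [f1, f2, f3] at this
  apply mul_ne_zero hj0 (h1 j0)
  rw [← this]; ring

/-- Scaled version. -/
lemma core (X Y : Fin 6 → ℝ) (V : Fin 6 → Fin 6 → ℝ)
    (h0 : ∀ i j, i ≠ j → ev (V i) (X j) (Y j) = 0)
    (h1 : ∀ i, ev (V i) (X i) (Y i) ≠ 0) (a : ℝ)
    (ht : ∀ i, V i 0 + V i 2 ≠ 0)
    (hs : ∀ i, (V i 0 - V i 2) ^ 2 + (V i 1) ^ 2 = a * (V i 0 + V i 2) ^ 2) : False := by
  have hsc : ∀ i x y, ev (fun k => V i k / (V i 0 + V i 2)) x y = ev (V i) x y / (V i 0 + V i 2) := by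
    intro i x y
    simp only [ev]
    ring
  refine core0 X Y (fun i k => V i k / (V i 0 + V i 2)) ?_ ?_ a ?_ ?_
  · intro i j hij
    rw [hsc, h0 i j hij, zero_div]
  · intro i
    rw [hsc]
    exact div_ne_zero (h1 i) (ht i)
  · intro i
    have := ht i
    field_simp
  · intro i
    have := ht i
    have hs' := hs i
    have hpos : (V i 0 + V i 2) ^ 2 ≠ 0 := pow_ne_zero 2 this
    have : (V i 0 / (V i 0 + V i 2) - V i 2 / (V i 0 + V i 2)) ^ 2 + (V i 1 / (V i 0 + V i 2)) ^ 2
        = ((V i 0 - V i 2) ^ 2 + (V i 1) ^ 2) / (V i 0 + V i 2) ^ 2 := by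
      field_simp
    rw [this, hs', mul_div_assoc, div_self hpos, mul_one]

end Pool.Agent.Helper15_Conics
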