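import Pool.Agent.Helper15_Conics.Unique

set_option autoImplicit false

namespace Pool.Agent.Helper15_Conics

/-- An isometry of the Euclidean plane in coordinates. -/
lemma isometry_coords (g : EuclideanSpace ℝ (Fin 2) ≃ᵢ EuclideanSpace ℝ (Fin 2)) :
    ∃ a b c d s t : ℝ, a ^ 2 + c ^ 2 = 1 ∧ b ^ 2 + d ^ 2 = 1 ∧ a * b + c * d = 0 ∧
      ∀ q : EuclideanSpace ℝ (Fin 2), (g q) 0 = a * q 0 + b * q 1 + s ∧
        (g q) 1 = c * q 0 + d * q 1 + t := by
  set A := g.toRealAffineIsometryEquiv with hA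
  set L := A.linearIsometryEquiv with hL
  have hg : ∀ q, g q = L q + g 0 := by
    intro q
    have h := A.map_vadd (0 : EuclideanSpace ℝ (Fin 2)) q
    rw [vadd_eq_add, add_zero, vadd_eq_add] at h
    exact h
  set e0 : EuclideanSpace ℝ (Fin 2) := EuclideanSpace.single 0 1 with he0
  set e1 : EuclideanSpace ℝ (Fin 2) := EuclideanSpace.single 1 1 with he1
  have hq : ∀ q : EuclideanSpace ℝ (Fin 2), q = q 0 • e0 + q 1 • e1 := by
    intro q
    ext i
    fin_cases i <;> simp [he0, he1]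
  refine ⟨(L e0) 0, (L e1) 0, (L e0) 1, (L e1) 1, (g 0) 0, (g 0) 1, ?_, ?_, ?_, ?_⟩
  · have h : ‖L e0‖ = 1 := by rw [L.norm_map, he0]; simp
    have h2 : ‖L e0‖ ^ 2 = 1 := by rw [h]; norm_num
    rw [EuclideanSpace.norm_sq_eq, Fin.sum_univ_two] at h2
    simpa using h2
  · have h : ‖L e1‖ = 1 := by rw [L.norm_map, he1]; simp
    have h2 : ‖L e1‖ ^ 2 = 1 := by rw [h]; norm_num
    rw [EuclideanSpace.norm_sq_eq, Fin.sum_univ_two] at h2
    simpa using h2
  · have h : inner ℝ (L e0) (L e1) = (0 : ℝ) := by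
      rw [L.inner_map_map, he0, he1, EuclideanSpace.inner_single_left]
      simp
    rw [PiLp.inner_apply, Fin.sum_univ_two] at h
    have e : ∀ x y : ℝ, inner ℝ x y = y * x := fun x y => rfl
    rw [e, e] at h
    linarith
  · intro q
    have h := hg q
    have h2 : L q = q 0 • L e0 + q 1 • L e1 := by
      conv_lhs => rw [hq q]
      rw [map_add, map_smul, map_smul]
    rw [h, h2]
    constructor
    · simp; ring
    · simp; ring

/-- The pull back of the polynomial `q` under the affine map with the given coefficients. -/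
def pull (q : Fin 6 → ℝ) (a b c d s t : ℝ) : Fin 6 → ℝ :=
  ![q 0 * a ^ 2 + q 1 * (a * c) + q 2 * c ^ 2,
    2 * q 0 * a * b + q 1 * (a * d + b * c) + 2 * q 2 * c * d,
    q 0 * b ^ 2 + q 1 * (b * d) + q 2 * d ^ 2,
    2 * q 0 * a * s + q 1 * (a * t + c * s) + 2 * q 2 * c * t + q 3 * a + q 4 * c,
    2 * q 0 * b * s + q 1 * (b * t + d * s) + 2 * q 2 * d * t + q 3 * b + q 4 * d,
    q 0 * s ^ 2 + q 1 * (s * t) + q 2 * t ^ 2 + q 3 * s + q 4 * t + q 5]

lemma ev_pull (q : Fin 6 → ℝ) (a b c d s t x y : ℝ) :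
    ev (pull q a b c d s t) x y = ev q (a * x + b * y + s) (c * x + d * y + t) := by
  simp [ev, pull]
  ring

lemma rows {a b c d : ℝ} (h1 : a ^ 2 + c ^ 2 = 1) (h2 : b ^ 2 + d ^ 2 = 1)
    (h3 : a * b + c * d = 0) : a ^ 2 + b ^ 2 = 1 ∧ c ^ 2 + d ^ 2 = 1 ∧ a * c + b * d = 0 ∧
      (a * d - b * c) ^ 2 = 1 := by
  have hD : (a * d - b * c) ^ 2 = 1 := by
    have : (a * d - b * c) ^ 2 = (a ^ 2 + c ^ 2) * (b ^ 2 + d ^ 2) - (a * b + c * d) ^ 2 := by ring
    rw [this, h1, h2, h3]; norm_num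
  obtain ⟨D, hDd⟩ : ∃ D, D = a * d - b * c := ⟨_, rfl⟩
  have hb : b = -(D * c) := by
    have : -(D * c) = b * (a ^ 2 + c ^ 2) - a * (a * b + c * d) := by rw [hDd]; ring
    rw [this, h1, h3]; ring
  have hd : d = D * a := by
    have : D * a = d * (a ^ 2 + c ^ 2) - c * (a * b + c * d) := by rw [hDd]; ring
    rw [this, h1, h3]; ring
  rw [← hDd] at hD
  refine ⟨?_, ?_, ?_, ?_⟩
  · rw [hb]
    have : a ^ 2 + (-(D * c)) ^ 2 = a ^ 2 + D ^ 2 * c ^ 2 := by ring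
    rw [this, hD]; linarith
  · rw [hd]
    have : c ^ 2 + (D * a) ^ 2 = c ^ 2 + D ^ 2 * a ^ 2 := by ring
    rw [this, hD]; linarith
  · rw [hd, hb]
    have : a * c + -(D * c) * (D * a) = a * c - D ^ 2 * (a * c) := by ring
    rw [this, hD]; ring
  · rw [← hDd]; exact hD

/-- trace invariance -/
lemma pull_trace (q : Fin 6 → ℝ) {a b c d : ℝ} (s t : ℝ) (h1 : a ^ 2 + c ^ 2 = 1)
    (h2 : b ^ 2 + d ^ 2 = 1) (h3 : a * b + c * d = 0) :
    pull q a b c d s t 0 + pull q a b c d s t 2 = q 0 + q 2 := by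
  obtain ⟨r1, r2, r3, _⟩ := rows h1 h2 h3
  have : pull q a b c d s t 0 + pull q a b c d s t 2
      = q 0 * (a ^ 2 + b ^ 2) + q 1 * (a * c + b * d) + q 2 * (c ^ 2 + d ^ 2) := by
    simp [pull]; ring
  rw [this, r1, r2, r3]; ring

/-- invariance of `(A - C)² + B²` -/
lemma pull_ecc (q : Fin 6 → ℝ) {a b c d : ℝ} (s t : ℝ) (h1 : a ^ 2 + c ^ 2 = 1)
    (h2 : b ^ 2 + d ^ 2 = 1) (h3 : a * b + c * d = 0) :
    (pull q a b c d s t 0 - pull q a b c d s t 2) ^ 2 + pull q a b c d s t 1 ^ 2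
      = (q 0 - q 2) ^ 2 + q 1 ^ 2 := by
  obtain ⟨_, _, _, hD⟩ := rows h1 h2 h3
  have ht := pull_trace q s t h1 h2 h3
  have hdet : 4 * pull q a b c d s t 0 * pull q a b c d s t 2 - pull q a b c d s t 1 ^ 2
      = (4 * q 0 * q 2 - q 1 ^ 2) * (a * d - b * c) ^ 2 := by
    simp [pull]; ring
  have e : (pull q a b c d s t 0 - pull q a b c d s t 2) ^ 2 + pull q a b c d s t 1 ^ 2
      = (pull q a b c d s t 0 + pull q a b c d s t 2) ^ 2
        - (4 * pull q a b c d s t 0 * pull q a b c d s t 2 - pull q a b c d s t 1 ^ 2) := by ring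
  rw [e, hdet, ht, hD]; ring

end Pool.Agent.Helper15_Conics
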