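import Pool.Agent.Helper15_Conics.Core

set_option autoImplicit false

namespace Pool.Agent.Helper15_Conics

/-- The determinant of the symmetric matrix of the quadratic polynomial, times 4. -/
def disc (q : Fin 6 → ℝ) : ℝ :=
  4 * q 0 * q 2 * q 5 + q 1 * q 3 * q 4 - q 0 * q 4 ^ 2 - q 2 * q 3 ^ 2 - q 5 * q 1 ^ 2

/-- A quadratic vanishing at three distinct collinear points is degenerate. -/
lemma disc_eq_zero_of_collinear (q : Fin 6 → ℝ) (x₁ y₁ x₂ y₂ x₃ y₃ : ℝ)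
    (h₁ : ev q x₁ y₁ = 0) (h₂ : ev q x₂ y₂ = 0) (h₃ : ev q x₃ y₃ = 0)
    (h12 : ¬ (x₁ = x₂ ∧ y₁ = y₂)) (h13 : ¬ (x₁ = x₃ ∧ y₁ = y₃)) (h23 : ¬ (x₂ = x₃ ∧ y₂ = y₃))
    (hcol : (x₂ - x₁) * (y₃ - y₁) - (x₃ - x₁) * (y₂ - y₁) = 0) : disc q = 0 := by
  obtain ⟨t, htx, hty⟩ : ∃ t : ℝ, x₃ = x₁ + t * (x₂ - x₁) ∧ y₃ = y₁ + t * (y₂ - y₁) := by
    by_cases hx : x₂ - x₁ = 0
    · have hy : y₂ - y₁ ≠ 0 := by
        intro hy
        exact h12 ⟨by linarith, by linarith⟩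
      refine ⟨(y₃ - y₁) / (y₂ - y₁), ?_, ?_⟩
      · rw [hx] at hcol ⊢
        have : (x₃ - x₁) * (y₂ - y₁) = 0 := by linarith
        rcases mul_eq_zero.mp this with h | h
        · linarith
        · exact absurd h hy
      · field_simp
        ring
    · refine ⟨(x₃ - x₁) / (x₂ - x₁), ?_, ?_⟩
      · field_simp
        ring
      · have : y₃ - y₁ = (x₃ - x₁) / (x₂ - x₁) * (y₂ - y₁) := by
          field_simp
          linarith
        linarith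
  set d1 := x₂ - x₁ with hd1
  set d2 := y₂ - y₁ with hd2
  have hx2 : x₂ = x₁ + d1 := by rw [hd1]; ring
  have hy2 : y₂ = y₁ + d2 := by rw [hd2]; ring
  have ht0 : t ≠ 0 := by
    intro h
    apply h13
    rw [htx, hty, h]
    constructor <;> ring
  have ht1 : t - 1 ≠ 0 := by
    intro h
    have h1 : t = 1 := by linarith
    apply h23
    rw [htx, hty, h1, hx2, hy2]
    constructor <;> ring
  set Q := q 0 * d1 ^ 2 + q 1 * (d1 * d2) + q 2 * d2 ^ 2 with hQ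
  set L := 2 * q 0 * x₁ * d1 + q 1 * (x₁ * d2 + y₁ * d1) + 2 * q 2 * y₁ * d2 + q 3 * d1 + q 4 * d2
    with hL
  have e2 : L + Q = 0 := by
    rw [hx2, hy2] at h₂
    simp only [ev] at h₁ h₂
    rw [hL, hQ]
    linear_combination h₂ - h₁
  have e3 : t * (L + t * Q) = 0 := by
    rw [htx, hty] at h₃
    simp only [ev] at h₁ h₃
    rw [hL, hQ]
    linear_combination h₃ - h₁
  have e4 : L + t * Q = 0 := by
    rcases mul_eq_zero.mp e3 with h | h
    · exact absurd h ht0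
    · exact h
  have e5 : (t - 1) * Q = 0 := by linear_combination e4 - e2
  have hQ0 : Q = 0 := by
    rcases mul_eq_zero.mp e5 with h | h
    · exact absurd h ht1
    · exact h
  have hL0 : L = 0 := by rw [hQ0] at e2; linarith
  -- n = p × d
  have hn : 0 < d1 ^ 2 + d2 ^ 2 := by
    rcases (add_nonneg (sq_nonneg d1) (sq_nonneg d2)).lt_or_eq with h | h
    · exact h
    · exfalso
      have a1 : d1 ^ 2 = 0 := le_antisymm (by have := sq_nonneg d2; linarith only [h, this])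
        (sq_nonneg d1)
      have a2 : d2 ^ 2 = 0 := by linarith only [h, a1]
      have b1 : d1 = 0 := pow_eq_zero_iff (two_ne_zero) |>.mp a1
      have b2 : d2 = 0 := pow_eq_zero_iff (two_ne_zero) |>.mp a2
      exact h12 ⟨by rw [hx2, b1, add_zero], by rw [hy2, b2, add_zero]⟩
  simp only [ev] at h₁
  have key : disc q * (d2 ^ 2 + d1 ^ 2 + (x₁ * d2 - y₁ * d1) ^ 2) ^ 2 = 0 := by
    -- entries of `N^T (2 M) N`
    obtain ⟨n1, hn1⟩ : ∃ n1, n1 = -d2 := ⟨_, rfl⟩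
    obtain ⟨n2, hn2⟩ : ∃ n2, n2 = d1 := ⟨_, rfl⟩
    obtain ⟨n3, hn3⟩ : ∃ n3, n3 = x₁ * d2 - y₁ * d1 := ⟨_, rfl⟩
    obtain ⟨x, hx⟩ : ∃ x, x = q 0 * x₁ * n1 * 2 + q 1 * (x₁ * n2 + y₁ * n1) + 2 * q 2 * y₁ * n2
      + q 3 * (n1 + x₁ * n3) + q 4 * (n2 + y₁ * n3) + 2 * q 5 * n3 := ⟨_, rfl⟩
    obtain ⟨y, hy⟩ : ∃ y, y = q 0 * d1 * n1 * 2 + q 1 * (d1 * n2 + d2 * n1) + 2 * q 2 * d2 * n2
      + q 3 * (d1 * n3) + q 4 * (d2 * n3) := ⟨_, rfl⟩
    obtain ⟨z, hz⟩ : ∃ z, z = q 0 * n1 ^ 2 + q 1 * (n1 * n2) + q 2 * n2 ^ 2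
      + q 3 * (n1 * n3) + q 4 * (n2 * n3) + q 5 * n3 ^ 2 := ⟨_, rfl⟩
    rw [hQ] at hQ0
    rw [hL] at hL0
    have hid : disc q * (n1 ^ 2 + n2 ^ 2 + n3 ^ 2) ^ 2 =
      (q 0 * x₁ ^ 2 + q 1 * (x₁ * y₁) + q 2 * y₁ ^ 2 + q 3 * x₁ + q 4 * y₁ + q 5) *
        (4 * (q 0 * d1 ^ 2 + q 1 * (d1 * d2) + q 2 * d2 ^ 2) * z - y ^ 2)
      + (2 * q 0 * x₁ * d1 + q 1 * (x₁ * d2 + y₁ * d1) + 2 * q 2 * y₁ * d2 + q 3 * d1 + q 4 * d2) *
        (x * y - (2 * q 0 * x₁ * d1 + q 1 * (x₁ * d2 + y₁ * d1) + 2 * q 2 * y₁ * d2 + q 3 * d1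
          + q 4 * d2) * z)
      - (q 0 * d1 ^ 2 + q 1 * (d1 * d2) + q 2 * d2 ^ 2) * x ^ 2 := by
      rw [hx, hy, hz, hn1, hn2, hn3, disc]
      ring
    rw [h₁, hL0, hQ0] at hid
    have h2 : n1 ^ 2 + n2 ^ 2 + n3 ^ 2 = d2 ^ 2 + d1 ^ 2 + (x₁ * d2 - y₁ * d1) ^ 2 := by
      rw [hn1, hn2, hn3]; ring
    rw [← h2, hid]; ring
  have hpos : 0 < (d2 ^ 2 + d1 ^ 2 + (x₁ * d2 - y₁ * d1) ^ 2) ^ 2 := by
    have : 0 < d2 ^ 2 + d1 ^ 2 + (x₁ * d2 - y₁ * d1) ^ 2 := by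
      have := sq_nonneg (x₁ * d2 - y₁ * d1)
      linarith only [this, hn]
    positivity
  rcases mul_eq_zero.mp key with h | h
  · exact h
  · exact absurd h hpos.ne'

/-- Evaluation at five points. -/
def evMap5 (X Y : Fin 5 → ℝ) : (Fin 6 → ℝ) →ₗ[ℝ] (Fin 5 → ℝ) where
  toFun q := fun j => ev q (X j) (Y j)
  map_add' p q := by
    funext j
    simp only [ev, Pi.add_apply]
    ring
  map_smul' c q := by
    funext j
    simp only [ev, Pi.smul_apply, smul_eq_mul, RingHom.id_apply]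
    ring

/-- coefficient vector of the product of the two lines through `P₁,P₂` and `P₃,P₄`. -/
def twoLines (x₁ y₁ x₂ y₂ x₃ y₃ x₄ y₄ : ℝ) : Fin 6 → ℝ :=
  ![(-(y₂ - y₁)) * (-(y₄ - y₃)),
    (-(y₂ - y₁)) * (x₄ - x₃) + (x₂ - x₁) * (-(y₄ - y₃)),
    (x₂ - x₁) * (x₄ - x₃),
    (-(y₂ - y₁)) * (x₃ * (y₄ - y₃) - (x₄ - x₃) * y₃)
      + (-(y₄ - y₃)) * (x₁ * (y₂ - y₁) - (x₂ - x₁) * y₁),
    (x₂ - x₁) * (x₃ * (y₄ - y₃) - (x₄ - x₃) * y₃)
      + (x₄ - x₃) * (x₁ * (y₂ - y₁) - (x₂ - x₁) * y₁),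
    (x₁ * (y₂ - y₁) - (x₂ - x₁) * y₁) * (x₃ * (y₄ - y₃) - (x₄ - x₃) * y₃)]

lemma ev_twoLines (x₁ y₁ x₂ y₂ x₃ y₃ x₄ y₄ x y : ℝ) :
    ev (twoLines x₁ y₁ x₂ y₂ x₃ y₃ x₄ y₄) x y =
      ((x₂ - x₁) * (y - y₁) - (x - x₁) * (y₂ - y₁)) *
      ((x₄ - x₃) * (y - y₃) - (x - x₃) * (y₄ - y₃)) := by
  simp [ev, twoLines]
  ring

/-- Two nondegenerate quadratics vanishing at five distinct points are proportional. -/
lemma unique_five (X Y : Fin 5 → ℝ) (hinj : ∀ i j, i ≠ j → ¬ (X i = X j ∧ Y i = Y j))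
    (q r : Fin 6 → ℝ) (hq : ∀ j, ev q (X j) (Y j) = 0) (hr : ∀ j, ev r (X j) (Y j) = 0)
    (dq : disc q ≠ 0) : ∃ c : ℝ, c • q = r := by
  have nc : ∀ i j k : Fin 5, i ≠ j → i ≠ k → j ≠ k →
      (X j - X i) * (Y k - Y i) - (X k - X i) * (Y j - Y i) ≠ 0 := by
    intro i j k hij hik hjk h
    exact dq (disc_eq_zero_of_collinear q (X i) (Y i) (X j) (Y j) (X k) (Y k) (hq i) (hq j) (hq k)
      (hinj i j hij) (hinj i k hik) (hinj j k hjk) h)
  have hbasis : ∀ k : Fin 5, ∃ s : Fin 6 → ℝ, (∀ j, j ≠ k → ev s (X j) (Y j) = 0) ∧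
      ev s (X k) (Y k) ≠ 0 := by
    have gen : ∀ k a b c d : Fin 5, a ≠ b → a ≠ k → b ≠ k → c ≠ d → c ≠ k → d ≠ k →
        (∀ j, j = k ∨ j = a ∨ j = b ∨ j = c ∨ j = d) →
        ∃ s : Fin 6 → ℝ, (∀ j, j ≠ k → ev s (X j) (Y j) = 0) ∧ ev s (X k) (Y k) ≠ 0 := by
      intro k a b c d hab hak hbk hcd hck hdk hcov
      refine ⟨twoLines (X a) (Y a) (X b) (Y b) (X c) (Y c) (X d) (Y d), ?_, ?_⟩
      · intro j hj
        rw [ev_twoLines]
        rcases hcov j with h | h | h | h | h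
        · exact absurd h hj
        · rw [h]; ring
        · rw [h]; ring
        · rw [h]; ring
        · rw [h]; ring
      · rw [ev_twoLines]
        exact mul_ne_zero (nc a b k hab hak hbk) (nc c d k hcd hck hdk)
    intro k
    fin_cases k
    · exact gen 0 1 2 3 4 (by decide) (by decide) (by decide) (by decide) (by decide) (by decide)
        (by decide)
    · exact gen 1 0 2 3 4 (by decide) (by decide) (by decide) (by decide) (by decide) (by decide)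
        (by decide)
    · exact gen 2 0 1 3 4 (by decide) (by decide) (by decide) (by decide) (by decide) (by decide)
        (by decide)
    · exact gen 3 0 1 2 4 (by decide) (by decide) (by decide) (by decide) (by decide) (by decide)
        (by decide)
    · exact gen 4 0 1 2 3 (by decide) (by decide) (by decide) (by decide) (by decide) (by decide)
        (by decide)
  choose s hs0 hs1 using hbasis
  have hsurj : Function.Surjective (evMap5 X Y) := by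
    intro g
    refine ⟨∑ i, (g i / ev (s i) (X i) (Y i)) • s i, ?_⟩
    rw [map_sum]
    funext j
    rw [Finset.sum_apply, Finset.sum_eq_single j]
    · rw [map_smul]
      show (g j / ev (s j) (X j) (Y j)) • ev (s j) (X j) (Y j) = g j
      rw [smul_eq_mul, div_mul_cancel₀ _ (hs1 j)]
    · intro i _ hij
      rw [map_smul]
      show (g i / ev (s i) (X i) (Y i)) • ev (s i) (X j) (Y j) = 0
      rw [hs0 i j (Ne.symm hij), smul_zero]
    · intro h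
      exact absurd (Finset.mem_univ j) h
  have hrank := LinearMap.finrank_range_add_finrank_ker (evMap5 X Y)
  rw [LinearMap.range_eq_top.mpr hsurj, finrank_top] at hrank
  simp only [Module.finrank_fin_fun] at hrank
  have hker : Module.finrank ℝ (LinearMap.ker (evMap5 X Y)) = 1 := by omega
  have hq0 : q ≠ 0 := by
    intro h
    apply dq
    rw [h]
    simp [disc]
  let q' : LinearMap.ker (evMap5 X Y) := ⟨q, by
    rw [LinearMap.mem_ker]; funext j; exact hq j⟩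
  let r' : LinearMap.ker (evMap5 X Y) := ⟨r, by
    rw [LinearMap.mem_ker]; funext j; exact hr j⟩
  have hq' : q' ≠ 0 := by
    intro h
    apply hq0
    exact congrArg Subtype.val h
  obtain ⟨c, hc⟩ := (finrank_eq_one_iff_of_nonzero' q' hq').mp hker r'
  exact ⟨c, congrArg Subtype.val hc⟩

end Pool.Agent.Helper15_Conics
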